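import Pool.Agent.N822.TZ.Stm

/-!
Project TZ (helper822): the Morse extension of the 2-adic odometer is ergodic.
-/

set_option autoImplicit false

open Set Topology MeasureTheory Filter

open scoped ENNReal

noncomputable section

namespace Pool.Agent.N618.TZ

open Pool.Agent.N822.TZ

lemma erg : Ergodic (fun z : ℤ_[2] => 1 + z) la := by
  refine ergodic_add_left_of_denseRange_zsmul ?_ _
  have h := PadicInt.denseRange_intCast (p := 2)
  simpa using h

lemma null_single (z : ℤ_[2]) : la {z} = 0 := by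
  by_contra h
  have h1 : (univ : Set ℤ_[2]).Infinite := Set.infinite_univ
  have h2 : la univ = ∞ := by
    refine h1.meas_eq_top ⟨la {z}, h, fun w _ => ?_⟩
    have h3 : ({w} : Set ℤ_[2]) = (fun x => x + (z - w)) ⁻¹' {z} := by
      ext x
      simp only [mem_singleton_iff, mem_preimage]
      constructor
      · rintro rfl
        ring
      · intro hx
        have : x = x + (z - w) - (z - w) := by ring
        rw [this, hx]
        ring
    rw [h3, measure_preimage_add_right]
  exact measure_ne_top la univ h2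

instance : NullSingletonClass la := ⟨null_single⟩

lemma null_int : la (range ((↑) : ℤ → ℤ_[2])) = 0 :=
  (countable_range _).measure_zero la

lemma phi_even (u : ℤ_[2]) : phi (2 * u) = true := by
  have h1 : ‖(2 * u + 1 : ℤ_[2])‖ = 1 := by
    rw [← PadicInt.isUnit_iff]
    have h2 : IsLocalRing.maximalIdeal ℤ_[2] = Ideal.span {(2 : ℤ_[2])} := by
      have := PadicInt.maximalIdeal_eq_span_p (p := 2)
      exact_mod_cast this
    by_contra h3
    have h4 : (2 * u + 1 : ℤ_[2]) ∈ IsLocalRing.maximalIdeal ℤ_[2] := by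
      rwa [IsLocalRing.mem_maximalIdeal, mem_nonunits_iff]
    rw [h2, Ideal.mem_span_singleton] at h4
    have h5 : (2 : ℤ_[2]) ∣ 1 := (dvd_add_right (Dvd.intro u rfl)).1 h4
    have h6 : IsUnit (2 : ℤ_[2]) := isUnit_of_dvd_one h5
    rw [PadicInt.isUnit_iff] at h6
    have h7 := PadicInt.norm_p (p := 2)
    norm_num at h7
    rw [h7] at h6
    norm_num at h6
  have h8 : (2 * u + 1 : ℤ_[2]).valuation = 0 := by
    have h9 : (2 * u + 1 : ℤ_[2]) ≠ 0 := by
      intro h0
      rw [h0, norm_zero] at h1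
      exact zero_ne_one h1
    have h10 := PadicInt.norm_eq_zpow_neg_valuation h9
    rw [h1] at h10
    by_contra h11
    have h12 : ((2 : ℕ) : ℝ) ^ (-((2 * u + 1 : ℤ_[2]).valuation : ℤ)) < 1 := by
      rw [zpow_neg, zpow_natCast]
      apply inv_lt_one_of_one_lt₀
      exact one_lt_pow₀ (by norm_num) h11
    rw [← h10] at h12
    exact lt_irrefl _ h12
  unfold phi
  rw [h8]
  decide

/-- the phases whose digit number `k` is even -/
def Gk (k : ℕ) : Set ℤ_[2] := {z | ∃ (u : ℤ_[2]) (r : ℕ), r < 2 ^ k ∧ z = 2 ^ k * (2 * u) + (r : ℤ_[2])}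

lemma cover (k : ℕ) (z : ℤ_[2]) : z ∈ Gk k ∨ z + 2 ^ k ∈ Gk k := by
  have h1 := PadicInt.appr_spec k z
  rw [Ideal.mem_span_singleton] at h1
  obtain ⟨u, hu⟩ := h1
  have hr : z.appr k < 2 ^ k := PadicInt.appr_lt z k
  have hz : z = 2 ^ k * u + (z.appr k : ℤ_[2]) := by
    have : z = (z - (z.appr k : ℤ_[2])) + (z.appr k : ℤ_[2]) := by ring
    rw [hu] at this
    exact_mod_cast this
  have h2 := PadicInt.appr_spec 1 u
  rw [Ideal.mem_span_singleton] at h2
  obtain ⟨w, hw⟩ := h2
  have hu1 : u.appr 1 < 2 ^ 1 := PadicInt.appr_lt u 1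
  have hu2 : u = 2 * w + (u.appr 1 : ℤ_[2]) := by
    have : u = (u - (u.appr 1 : ℤ_[2])) + (u.appr 1 : ℤ_[2]) := by ring
    rw [hw, pow_one] at this
    exact_mod_cast this
  have h3 : u.appr 1 = 0 ∨ u.appr 1 = 1 := by omega
  rcases h3 with h3 | h3
  · left
    rw [h3] at hu2
    refine ⟨w, z.appr k, hr, ?_⟩
    conv_lhs => rw [hz, hu2]
    push_cast
    ring
  · right
    rw [h3] at hu2
    refine ⟨w + 1, z.appr k, hr, ?_⟩
    conv_lhs => rw [hz, hu2]
    push_cast
    ring

lemma half_le (k : ℕ) : 1 ≤ la (Gk k) + la (Gk k) := by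
  have h1 : (univ : Set ℤ_[2]) ⊆ Gk k ∪ (fun z => z + 2 ^ k) ⁻¹' Gk k := fun z _ => cover k z
  have h2 := (measure_mono h1).trans (measure_union_le (μ := la) _ _)
  rw [measure_univ, measure_preimage_add_right] at h2
  exact h2

/-- the fibres -/
def fib (E : Set Om) (b : Bool) : Set ℤ_[2] := {z | (z, b) ∈ E}

lemma meas_fib {E : Set Om} (hE : MeasurableSet E) (b : Bool) : MeasurableSet (fib E b) := by
  have : Measurable (fun z : ℤ_[2] => ((z, b) : Om)) := measurable_id.prodMk measurable_const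
  exact this hE

lemma rho_apply {E : Set Om} (hE : MeasurableSet E) :
    rho E = 2⁻¹ * (la (fib E false) + la (fib E true)) := by
  have h1 : Measurable (fun z : ℤ_[2] => ((z, false) : Om)) :=
    measurable_id.prodMk measurable_const
  have h2 : Measurable (fun z : ℤ_[2] => ((z, true) : Om)) :=
    measurable_id.prodMk measurable_const
  unfold rho
  rw [Measure.smul_apply, Measure.add_apply, Measure.map_apply h1 hE, Measure.map_apply h2 hE]
  rfl

lemma inv_pow {E : Set Om} (h : (T : Om → Om) ⁻¹' E = E) (n : ℕ) (ω : Om) :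
    (T ^ n) ω ∈ E ↔ ω ∈ E := by
  induction n generalizing ω with
  | zero => simp
  | succ n ih =>
    rw [pow_succ, Equiv.Perm.mul_apply, ih]
    exact (Set.ext_iff.1 h ω)

lemma step (h1 : S_PHI) {E : Set Om} (h : (T : Om → Om) ⁻¹' E = E) (k : ℕ) (b : Bool) :
    fib E b ∩ Gk k ⊆ range ((↑) : ℤ → ℤ_[2]) ∪
      ((fib E b \ ((fun z => z + 2 ^ k) ⁻¹' fib E b)) ∪
        (fun z => z + 2 ^ k) ⁻¹' (fib E false ∩ fib E true)) := by
  rintro z ⟨hz, u, r, hr, hzu⟩
  by_cases hi : z ∈ range ((↑) : ℤ → ℤ_[2])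
  · exact Or.inl hi
  right
  have hi' : ∀ m : ℤ, z ≠ (m : ℤ_[2]) := fun m hm => hi ⟨m, hm.symm⟩
  have h2 := h1 k z (2 * u) r hi' hr hzu b
  rw [phi_even, Bool.xor_true] at h2
  have h3 : (z + 2 ^ k, !b) ∈ E := by
    rw [← h2, inv_pow h]
    exact hz
  by_cases h4 : (z + 2 ^ k, b) ∈ E
  · right
    cases b
    · exact ⟨h4, h3⟩
    · exact ⟨h3, h4⟩
  · left
    exact ⟨hz, h4⟩

theorem t_ERG (h1 : S_PHI) (h2 : S_PRES) (h3 : S_TR) : S_ERG := by
  refine ⟨h2, ⟨fun E hE h => ?_⟩⟩
  rw [eventuallyConst_set']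
  have hmem : ∀ z b, (z, b) ∈ E ↔ (z + 1, xor b (phi z)) ∈ E := fun z b =>
    (Set.ext_iff.1 h (z, b)).symm
  have hmF := meas_fib hE false
  have hmT := meas_fib hE true
  have hA : (fun z : ℤ_[2] => 1 + z) ⁻¹' (fib E false ∩ fib E true) = fib E false ∩ fib E true := by
    ext z
    simp only [mem_preimage, mem_inter_iff, fib, mem_setOf_eq]
    rw [hmem z false, hmem z true, add_comm 1 z]
    cases phi z <;> simp [and_comm]
  have hB : (fun z : ℤ_[2] => 1 + z) ⁻¹' (fib E false ∪ fib E true) = fib E false ∪ fib E true := by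
    ext z
    simp only [mem_preimage, mem_union, fib, mem_setOf_eq]
    rw [hmem z false, hmem z true, add_comm 1 z]
    cases phi z <;> simp [or_comm]
  have hA' := erg.toPreErgodic.prob_eq_zero_or_one (hmF.inter hmT) hA
  have hB' := erg.toPreErgodic.prob_eq_zero_or_one (hmF.union hmT) hB
  rcases hB' with hB' | hB'
  · left
    rw [ae_eq_empty, rho_apply hE]
    have h4 : la (fib E false) = 0 := measure_mono_null subset_union_left hB'
    have h5 : la (fib E true) = 0 := measure_mono_null subset_union_right hB'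
    rw [h4, h5]
    simp
  rcases hA' with hA' | hA'
  · exfalso
    have hBc : la (fib E false ∪ fib E true)ᶜ = 0 := (prob_compl_eq_zero_iff (hmF.union hmT)).2 hB'
    have hest : ∀ (k : ℕ) (b : Bool), la (fib E b ∩ Gk k) ≤
        la (fib E b \ ((fun z => z + 2 ^ k) ⁻¹' fib E b)) := by
      intro k b
      refine (measure_mono (step h1 h k b)).trans ?_
      refine (measure_union_le _ _).trans ?_
      rw [null_int, zero_add]
      refine (measure_union_le _ _).trans ?_
      rw [measure_preimage_add_right, hA', add_zero]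
    have hG : ∀ k : ℕ, la (Gk k) ≤ la (fib E false \ ((fun z => z + 2 ^ k) ⁻¹' fib E false)) +
        la (fib E true \ ((fun z => z + 2 ^ k) ⁻¹' fib E true)) := by
      intro k
      have h4 : Gk k ⊆ (fib E false ∪ fib E true)ᶜ ∪
          ((fib E false ∩ Gk k) ∪ (fib E true ∩ Gk k)) := by
        intro z hz
        by_cases h5 : z ∈ fib E false ∪ fib E true
        · right
          rcases h5 with h5 | h5
          · exact Or.inl ⟨h5, hz⟩
          · exact Or.inr ⟨h5, hz⟩
        · exact Or.inl h5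
      refine (measure_mono h4).trans ?_
      refine (measure_union_le _ _).trans ?_
      rw [hBc, zero_add]
      refine (measure_union_le _ _).trans ?_
      exact add_le_add (hest k false) (hest k true)
    have ht := (h3 _ hmF).add (h3 _ hmT)
    have ht2 := ht.add ht
    simp only [add_zero] at ht2
    have h6 : (1 : ℝ≥0∞) ≤ 0 := by
      refine ge_of_tendsto' ht2 fun k => ?_
      exact (half_le k).trans (add_le_add (hG k) (hG k))
    exact absurd h6 (by simp)
  · right
    rw [ae_eq_univ, rho_apply hE.compl]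
    have hAc : la (fib E false ∩ fib E true)ᶜ = 0 := (prob_compl_eq_zero_iff (hmF.inter hmT)).2 hA'
    have h4 : la (fib Eᶜ false) = 0 := by
      refine measure_mono_null ?_ hAc
      intro z hz hz2
      exact hz hz2.1
    have h5 : la (fib Eᶜ true) = 0 := by
      refine measure_mono_null ?_ hAc
      intro z hz hz2
      exact hz hz2.2
    rw [h4, h5]
    simp

end Pool.Agent.N618.TZ

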